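import Pool.Agent.Helper55.CF.Defs
import Pool.Agent.Helper55.CF.All
import Pool.Agent.Helper49.CF.Adj

/-!
# Cubic fourfolds with 1-Du Bois singularities are GIT semistable

Outline of the proof.  If `F` is unstable, there is a basis in which all monomials of `F` have
large weight (Hilbert–Mumford through the singular value decomposition).  A classification of the
destabilising flags gives, in a suitable basis, one of five explicit shapes of the local equation
`f` at a point of the hypersurface.  On the analytic side, the functional equation for `f` and its
complex conjugate give, by integration by parts, the estimate
`∫ (R|f|² - 1) exp(-R|f|²) ψ = O(R⁻² (log R)ᵏ)` for test functions `ψ` near the point.  Integrating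
out two suitable variables exactly (Morse lemma with parameters, or Fresnel integrals along a line
contained in the hypersurface combined with non-stationary phase in the transversal variables)
turns this into an upper bound for an integral with positive integrand, which contradicts the
weighted lower bound in each of the five shapes.
-/

set_option autoImplicit false

namespace Pool.Agent.Results.MP_b612a6_ag.OneDuBoisSemistable

open CF55

/-- Let `F` be a nonzero cubic form in six complex variables such that the cubic fourfold `F = 0`
has 1-Du Bois singularities (minimal exponent `≥ 2` at every point).  Then `F` is GIT semistable:
`0` is not in the closure of its `SL₆(ℂ)`-orbit. -/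
theorem result : ∀ F : MvPolynomial (Fin 6) ℂ, F ≠ 0 → F.IsHomogeneous 3 → OneDuBois F →
    GITSemistable F :=
  fun F hF0 hF hDB => (allOf PkAdj.stmtADJ F hF0 hF hDB).1

end Pool.Agent.Results.MP_b612a6_ag.OneDuBoisSemistable
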